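import Pool.Agent.H15.KM7.Stmts
import Pool.Agent.H32.Dense.Marg

/-!
# The local label potential: the tower, from the step
-/

set_option autoImplicit false

namespace Pool.KM7

open Finset Real
open Pool.Agent.H49.Ent Pool.Agent.H32.Dense Pool.STK Pool.KA

namespace TW

theorem marg_of_psh {E Ω : Type} [Fintype E] {p' : E → ℝ} {pr : E → Ω} {p : Ω → ℝ}
    (h : Psh p' pr p) : Marg p' p pr := by
  classical
  intro ω
  have h1 := h ω
  unfold law at h1
  refine Eq.trans ?_ h1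
  refine Finset.sum_congr rfl fun e _ => ?_
  by_cases h2 : pr e = ω
  · simp only [h2, if_true]
  · simp only [h2, if_false]

theorem psh_of_marg {E Ω : Type} [Fintype E] {p' : E → ℝ} {pr : E → Ω} {p : Ω → ℝ}
    (h : Marg p' p pr) : Psh p' pr p := by
  classical
  intro ω
  have h1 := h ω
  unfold law
  refine Eq.trans ?_ h1
  refine Finset.sum_congr rfl fun e _ => ?_
  by_cases h2 : pr e = ω
  · simp only [h2, if_true]
  · simp only [h2, if_false]

theorem get_mono {κ : ℝ} {R w : ℕ} {G : Fam 2 w} {x x' : ℝ} (h : x' ≤ x) (hG : Get κ R G x) :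
    Get κ R G x' := by
  obtain ⟨E, i, p', hp', pr, q, h1, h2, h3⟩ := hG
  exact ⟨E, i, p', hp', pr, q, h1, h2, h.trans h3⟩

theorem get_trc {κ : ℝ} {R J x y : ℕ} {G : Fam 2 J} {hx : x ≤ J} {hy : y ≤ J} (h : x = y) {z : ℝ}
    (hG : Get κ R (G.trc x hx) z) : Get κ R (G.trc y hy) z := by
  subst h
  exact hG

/-- The potential only depends on the samples of positive probability. -/
theorem psi_congr {κ : ℝ} {w : ℕ} {E : Type} [Fintype E] (G G' : Fam 2 w) (p : E → ℝ)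
    (hp : IsLaw p) (pr : E → G.Ω) (pr' : E → G'.Ω) (q : E → Sec)
    (h : ∀ e, G.T (pr e) = G'.T (pr' e) ∧ G.u (pr e) = G'.u (pr' e) ∧ G.d (pr e) = G'.d (pr' e))
    {S : Type} (z : G.ζ → S) (z' : G'.ζ → S) (hz : Function.Injective z)
    (hz' : Function.Injective z') (hZ : ∀ e, z (G.Z (pr e)) = z' (G'.Z (pr' e))) :
    Psi κ (G.ext p hp pr) q = Psi κ (G'.ext p hp pr') q := by
  unfold Psi
  congr 1
  have h1 : Lab (G.ext p hp pr) q = Lab (G'.ext p hp pr') q := by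
    funext e
    have hx : (G.ext p hp pr).x e = (G'.ext p hp pr').x e := by
      funext i
      show G.u (pr e) i + ((G.T (pr e) : ℝ) / 2 ^ w) * G.d (pr e) i =
        G'.u (pr' e) i + ((G'.T (pr' e) : ℝ) / 2 ^ w) * G'.d (pr' e) i
      rw [(h e).1, (h e).2.1, (h e).2.2]
    have hd : (G.ext p hp pr).d e = (G'.ext p hp pr').d e := (h e).2.2
    have hT : (G.ext p hp pr).T e = (G'.ext p hp pr').T e := (h e).1
    unfold Lab
    rw [hx, hd, hT]
  show CH p (Lab (G.ext p hp pr) q) (fun e => G.Z (pr e)) =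
    CH p (Lab (G'.ext p hp pr') q) (fun e => G'.Z (pr' e))
  rw [h1]
  refine CH_congr hp.nonneg (fun e e' _ _ hh => (Prod.ext_iff.1 hh).1)
    (fun e e' _ _ hh => (Prod.ext_iff.1 hh).1) ?_ ?_
  · intro e e' _ _ hh
    apply hz'
    rw [← hZ, ← hZ]
    exact congrArg z hh
  · intro e e' _ _ hh
    apply hz
    rw [hZ, hZ]
    exact congrArg z' hh

/-- A copy of a copy. -/
theorem get_copy {κ : ℝ} {R J w w' : ℕ} (G : Fam 2 J) (hw : w + w' ≤ J) {E : Type} [Fintype E]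
    (p : E → ℝ) (hp : IsLaw p) (pr : E → G.Ω) (hpr : Psh p pr G.p) {x : ℝ}
    (hG : Get κ R (((G.trc (w + w') hw).ext p hp pr).trc w (Nat.le_add_right w w')) x) :
    Get κ R (G.trc w (by omega)) x := by
  obtain ⟨E', i, p', hp', pr', q, h1, h2, h3⟩ := hG
  have hm : Marg p' G.p (fun e => pr (pr' e)) := (marg_of_psh h1).comp (marg_of_psh hpr)
  refine ⟨E', i, p', hp', fun e => pr (pr' e), q, psh_of_marg hm, h2, h3.trans (le_of_eq ?_)⟩
  refine psi_congr (((G.trc (w + w') hw).ext p hp pr).trc w (Nat.le_add_right w w'))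
    (G.trc w (by omega)) p' hp' pr' (fun e => pr (pr' e)) q ?_ id id Function.injective_id
    Function.injective_id (fun e => rfl)
  intro e
  refine ⟨?_, rfl, rfl⟩
  show G.T (pr (pr' e)) / 2 ^ (J - (w + w')) / 2 ^ (w + w' - w) = G.T (pr (pr' e)) / 2 ^ (J - w)
  rw [Nat.div_div_eq_div_mul, ← pow_add]
  congr 2
  omega

/-- The cost of `N` blocks, `sh` blocks from the end. -/
noncomputable def cs1 {Y : Type} (f : Y → ℕ → ℝ) (Λ : ℝ) (K N sh : ℕ) {J : ℕ} (G : Fam 2 J)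
    {κ₁ : Type} (v : G.Ω → κ₁) (y : ℕ → G.Ω → Y) : ℝ :=
  ∑ i ∈ range N, Ex G.p (fun ω => f (y (sh + i) ω) (G.T ω / 2 ^ (K * (sh + i)) % 2 ^ K)) -
    Λ * CH G.p (fun ω => G.T ω / 2 ^ (K * sh) % 2 ^ (K * N))
      (fun ω => ((v ω, (G.l ω, G.Z ω)), G.T ω / 2 ^ (K * (sh + N))))

/-- The costs add up. -/
theorem cst_add {Y : Type} (f : Y → ℕ → ℝ) (Λ : ℝ) (K N sh : ℕ) {J : ℕ} (G : Fam 2 J)
    {κ₁ : Type} (v : G.Ω → κ₁) (y : ℕ → G.Ω → Y) :
    cst f Λ K (sh + N) G v y = cst f Λ K sh G v y + cs1 f Λ K N sh G v y := by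
  have hp := G.isLaw.nonneg
  unfold cst cs1
  rw [Finset.sum_range_add]
  have key : CH G.p (fun ω => G.T ω % 2 ^ (K * (sh + N)))
      (fun ω => ((v ω, (G.l ω, G.Z ω)), G.T ω / 2 ^ (K * (sh + N)))) =
      CH G.p (fun ω => G.T ω / 2 ^ (K * sh) % 2 ^ (K * N))
        (fun ω => ((v ω, (G.l ω, G.Z ω)), G.T ω / 2 ^ (K * (sh + N)))) +
      CH G.p (fun ω => G.T ω % 2 ^ (K * sh))
        (fun ω => ((v ω, (G.l ω, G.Z ω)), G.T ω / 2 ^ (K * sh))) := by
    have hT : ∀ t : ℕ, t % 2 ^ (K * (sh + N)) =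
        t % 2 ^ (K * sh) + 2 ^ (K * sh) * (t / 2 ^ (K * sh) % 2 ^ (K * N)) := by
      intro t
      have e : (2 : ℕ) ^ (K * (sh + N)) = 2 ^ (K * sh) * 2 ^ (K * N) := by
        rw [← pow_add]
        congr 1
        ring
      rw [e, Nat.mod_mul]
    have hT1 : ∀ t : ℕ, t % 2 ^ (K * (sh + N)) % 2 ^ (K * sh) = t % 2 ^ (K * sh) := by
      intro t
      refine Nat.mod_mod_of_dvd t ?_
      exact pow_dvd_pow 2 (Nat.mul_le_mul_left K (by omega))
    have hT2 : ∀ t : ℕ, t % 2 ^ (K * (sh + N)) / 2 ^ (K * sh) =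
        t / 2 ^ (K * sh) % 2 ^ (K * N) := by
      intro t
      rw [hT t, Nat.add_mul_div_left _ _ (by positivity),
        Nat.div_eq_of_lt (Nat.mod_lt _ (by positivity)), zero_add]
    have hT3 : ∀ t : ℕ, t / 2 ^ (K * sh) / 2 ^ (K * N) = t / 2 ^ (K * (sh + N)) := by
      intro t
      rw [Nat.div_div_eq_div_mul, ← pow_add]
      congr 2
      ring
    have e1 := CH_chain hp (fun ω => G.T ω % 2 ^ (K * sh))
      (fun ω => G.T ω / 2 ^ (K * sh) % 2 ^ (K * N))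
      (fun ω => ((v ω, (G.l ω, G.Z ω)), G.T ω / 2 ^ (K * (sh + N))))
    have e2 : CH G.p (fun ω => G.T ω % 2 ^ (K * (sh + N)))
        (fun ω => ((v ω, (G.l ω, G.Z ω)), G.T ω / 2 ^ (K * (sh + N)))) =
        CH G.p (fun ω => (G.T ω % 2 ^ (K * sh), G.T ω / 2 ^ (K * sh) % 2 ^ (K * N)))
        (fun ω => ((v ω, (G.l ω, G.Z ω)), G.T ω / 2 ^ (K * (sh + N)))) := by
      refine CH_congr hp ?_ ?_ (fun _ _ _ _ h => h) (fun _ _ _ _ h => h)
      · intro ω ω' _ _ h
        have h1 : G.T ω % 2 ^ (K * (sh + N)) = G.T ω' % 2 ^ (K * (sh + N)) :=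
          (Prod.ext_iff.1 h).1
        show (G.T ω % 2 ^ (K * sh), G.T ω / 2 ^ (K * sh) % 2 ^ (K * N)) =
          (G.T ω' % 2 ^ (K * sh), G.T ω' / 2 ^ (K * sh) % 2 ^ (K * N))
        rw [← hT1, ← hT1 (G.T ω'), ← hT2, ← hT2 (G.T ω'), h1]
      · intro ω ω' _ _ h
        have h1 : (G.T ω % 2 ^ (K * sh), G.T ω / 2 ^ (K * sh) % 2 ^ (K * N)) =
          (G.T ω' % 2 ^ (K * sh), G.T ω' / 2 ^ (K * sh) % 2 ^ (K * N)) := (Prod.ext_iff.1 h).1
        simp only [Prod.mk.injEq] at h1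
        show G.T ω % 2 ^ (K * (sh + N)) = G.T ω' % 2 ^ (K * (sh + N))
        rw [hT, hT (G.T ω'), h1.1, h1.2]
    have e3 : CH G.p (fun ω => G.T ω % 2 ^ (K * sh))
        (fun ω => (G.T ω / 2 ^ (K * sh) % 2 ^ (K * N),
          ((v ω, (G.l ω, G.Z ω)), G.T ω / 2 ^ (K * (sh + N))))) =
        CH G.p (fun ω => G.T ω % 2 ^ (K * sh))
        (fun ω => ((v ω, (G.l ω, G.Z ω)), G.T ω / 2 ^ (K * sh))) := by
      refine CH_congr hp (fun _ _ _ _ h => (Prod.ext_iff.1 h).1)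
        (fun _ _ _ _ h => (Prod.ext_iff.1 h).1) ?_ ?_
      · intro ω ω' _ _ h
        simp only [Prod.mk.injEq] at h ⊢
        obtain ⟨h1, h2, h3⟩ := h
        refine ⟨h2, ?_⟩
        rw [← hT3, ← hT3 (G.T ω')] at h3
        have h4 := Nat.div_add_mod (G.T ω / 2 ^ (K * sh)) (2 ^ (K * N))
        have h5 := Nat.div_add_mod (G.T ω' / 2 ^ (K * sh)) (2 ^ (K * N))
        rw [← h4, ← h5, h1, h3]
      · intro ω ω' _ _ h
        simp only [Prod.mk.injEq] at h ⊢
        obtain ⟨h2, h3⟩ := h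
        refine ⟨by rw [h3], h2, ?_⟩
        rw [← hT3, ← hT3 (G.T ω'), h3]
    rw [e2, e1, e3]
  rw [key]
  ring

theorem cst_zero {Y : Type} (f : Y → ℕ → ℝ) (Λ : ℝ) (K : ℕ) {J : ℕ} (G : Fam 2 J)
    {κ₁ : Type} (v : G.Ω → κ₁) (y : ℕ → G.Ω → Y) : cst f Λ K 0 G v y = 0 := by
  unfold cst
  rw [range_zero, sum_empty, CH_eq_zero G.isLaw.nonneg]
  · ring
  · intro ω ω' _ _ _
    show G.T ω % 2 ^ (K * 0) = G.T ω' % 2 ^ (K * 0)
    rw [mul_zero, pow_zero, Nat.mod_one, Nat.mod_one]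

/-- One step. -/
theorem get_step {C κ : ℝ} {A : ℕ} (hκ : 0 < κ) (hκ1 : κ ≤ 1) (hA : 3 ≤ κ * A) {Y : Type}
    {f : Y → ℕ → ℝ} {Λ : ℝ} (hΛ : 0 < Λ) {K N : ℕ} (hN : Nng f Λ K) {δ : ℝ} (hδ : 0 ≤ δ)
    (hPN : PN κ A f Λ K N δ)
    (hS : ∀ (κ : ℝ), 0 < κ → κ ≤ 1 → ∀ (A : ℕ), 3 ≤ κ * A →
      ∀ (Y : Type) (f : Y → ℕ → ℝ) (Λ : ℝ), 0 < Λ → ∀ (K N : ℕ), Nng f Λ K →
      ∀ δ : ℝ, 0 ≤ δ → PN κ A f Λ K N δ →
      ∀ (w R : ℕ) (G : Fam 2 (w + K * N)) (κ₁ : Type) (v : G.Ω → κ₁) (y : ℕ → G.Ω → Y),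
      Adm K N G v y → ∀ q : G.Ω → Sec, (∀ ω, 0 < G.p ω → Ok (w + K * N) R (q ω)) →
      Get κ R (G.trc w (Nat.le_add_right w (K * N)))
        (Psi κ G q - cst f Λ K N G v y - δ * (K * N : ℕ) -
          C * (1 + Λ) * Real.log (R + 2)))
    {J w R sh : ℕ} (G : Fam 2 J) {κ₁ : Type} (v : G.Ω → κ₁) (y : ℕ → G.Ω → Y)
    (hw : w + K * N ≤ J) (hsh : J = w + K * N + K * sh)
    (hAdm : Adm K (sh + N) G v y) {x : ℝ} (hG : Get κ R (G.trc (w + K * N) hw) x) :
    Get κ R (G.trc w (by omega)) (x - cs1 f Λ K N sh G v y - δ * (K * N : ℕ) -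
      C * (1 + Λ) * Real.log (R + 2)) := by
  obtain ⟨E, iE, p', hp', pr, q, h1, h2, h3⟩ := hG
  have hm : Marg p' G.p pr := marg_of_psh h1
  have hpos : ∀ e, 0 < p' e → 0 < G.p (pr e) := fun e he => hm.pos hp'.nonneg he
  have hJs : J - (w + K * N) = K * sh := by omega
  have hadm : Adm K N ((G.trc (w + K * N) hw).ext p' hp' pr) (fun e => v (pr e))
      (fun i e => y (sh + i) (pr e)) := by
    intro i hi e e' he he' hE
    have h4 := hAdm (sh + i) (by omega) (pr e) (pr e') (hpos e he) (hpos e' he')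
    refine h4 ?_
    have h5 : ((v (pr e), (G.l (pr e), G.Z (pr e))),
        G.T (pr e) / 2 ^ (J - (w + K * N)) / 2 ^ (K * (i + 1))) =
        ((v (pr e'), (G.l (pr e'), G.Z (pr e'))),
        G.T (pr e') / 2 ^ (J - (w + K * N)) / 2 ^ (K * (i + 1))) := hE
    simp only [Prod.mk.injEq] at h5 ⊢
    refine ⟨h5.1, ?_⟩
    have h6 := h5.2
    rw [hJs, Nat.div_div_eq_div_mul, Nat.div_div_eq_div_mul, ← pow_add] at h6
    have e1 : K * (sh + i + 1) = K * sh + K * (i + 1) := by ring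
    rw [e1]
    exact h6
  have h4 := hS κ hκ hκ1 A hA Y f Λ hΛ K N hN δ hδ hPN w R
    ((G.trc (w + K * N) hw).ext p' hp' pr) κ₁ (fun e => v (pr e))
    (fun i e => y (sh + i) (pr e)) hadm q h2
  have h5 := get_copy G hw p' hp' pr h1 h4
  refine get_mono ?_ h5
  have e2 : cst f Λ K N ((G.trc (w + K * N) hw).ext p' hp' pr) (fun e => v (pr e))
      (fun i e => y (sh + i) (pr e)) = cs1 f Λ K N sh G v y := by
    unfold cst cs1
    congr 1
    · refine Finset.sum_congr rfl fun i _ => ?_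
      have h6 := hm.ex (fun ω => f (y (sh + i) ω) (G.T ω / 2 ^ (K * (sh + i)) % 2 ^ K))
      rw [← h6]
      show Ex p' (fun e => f (y (sh + i) (pr e))
        (G.T (pr e) / 2 ^ (J - (w + K * N)) / 2 ^ (K * i) % 2 ^ K)) = _
      congr 1
      funext e
      rw [hJs, Nat.div_div_eq_div_mul, ← pow_add]
      have e1 : K * (sh + i) = K * sh + K * i := by ring
      rw [e1]
    · congr 1
      have h6 := hm.CH (fun ω => G.T ω / 2 ^ (K * sh) % 2 ^ (K * N))
        (fun ω => ((v ω, (G.l ω, G.Z ω)), G.T ω / 2 ^ (K * (sh + N))))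
      rw [← h6]
      show CH p' (fun e => G.T (pr e) / 2 ^ (J - (w + K * N)) % 2 ^ (K * N))
        (fun e => ((v (pr e), (G.l (pr e), G.Z (pr e))),
          G.T (pr e) / 2 ^ (J - (w + K * N)) / 2 ^ (K * N))) = _
      congr 1
      · funext e
        rw [hJs]
      · funext e
        rw [hJs, Nat.div_div_eq_div_mul, ← pow_add]
        have e1 : K * (sh + N) = K * sh + K * N := by ring
        rw [e1]
  rw [e2]
  linarith

end TW

open TW in
/-- **(TOWER)** from the step. -/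
theorem tow_of (hSTEP : STEPStmt) : TOWStmt := by
  obtain ⟨C, hC, hS⟩ := hSTEP
  refine ⟨C, hC, ?_⟩
  intro κ hκ hκ1 A hA Y f Λ hΛ K N' hK hN' hN δ hδ hPN M G κ₁ v y hAdm hu s hs q hq
  obtain ⟨R, hR⟩ : ∃ R, R = K * (N' * M) + s := ⟨_, rfl⟩
  obtain ⟨err, herr⟩ : ∃ err, err = δ * (K * N' : ℕ) + C * (1 + Λ) * Real.log (R + 2) :=
    ⟨_, rfl⟩
  have key : ∀ a : ℕ, ∀ (w : ℕ) (hw : w + K * (N' * a) = K * (N' * M)),
      Get κ R (G.trc w (by omega)) (Psi κ G q - cst f Λ K (N' * a) G v y - a * err) := by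
    intro a
    induction a with
    | zero =>
      intro w hw
      have hwJ : w = K * (N' * M) := by
        simpa using hw
      subst hwJ
      refine ⟨G.Ω, G.fin, G.p, G.isLaw, id, q, psh_of_marg (Marg.id G.p), ?_, ?_⟩
      · intro ω hω
        obtain ⟨c1, c2, c3, c4⟩ := hq ω hω
        refine ⟨?_, ?_, ?_⟩
        · rw [c2]
        · rw [c2, c3, hR]
        · rw [c3]
          exact c4
      · have e0 : N' * 0 = 0 := mul_zero _
        rw [e0, cst_zero]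
        have e3 : Psi κ ((G.trc (K * (N' * M)) (by omega)).ext G.p G.isLaw id) q =
            Psi κ (G.ext G.p G.isLaw id) q := by
          refine psi_congr (G.trc (K * (N' * M)) (by omega)) G G.p G.isLaw id id q ?_ id id
            Function.injective_id Function.injective_id (fun e => rfl)
          intro e
          refine ⟨?_, rfl, rfl⟩
          show G.T e / 2 ^ (K * (N' * M) - K * (N' * M)) = G.T e
          rw [Nat.sub_self, pow_zero, Nat.div_one]
        have e1 : Psi κ G q = Psi κ (G.ext G.p G.isLaw id) q := rfl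
        rw [e3, ← e1]
        push_cast
        linarith
    | succ a ih =>
      intro w hw
      have e4 : K * (N' * (a + 1)) = K * (N' * a) + K * N' := by ring
      have h1 := ih (w + K * N') (by omega)
      have hAdm' : Adm K (N' * a + N') G v y := by
        intro i hi
        refine hAdm i (lt_of_lt_of_le hi ?_)
        have h2 : K * (N' * (a + 1)) ≤ K * (N' * M) := by omega
        have h3 : N' * (a + 1) ≤ N' * M := Nat.le_of_mul_le_mul_left h2 (by omega)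
        calc N' * a + N' = N' * (a + 1) := by ring
          _ ≤ N' * M := h3
      have h5 := get_step hκ hκ1 hA hΛ hN hδ hPN hS (w := w) (R := R) (sh := N' * a) G v y
        (by omega) (by omega) hAdm' h1
      refine get_mono (le_of_eq ?_) h5
      have e5 : N' * (a + 1) = N' * a + N' := by ring
      rw [e5, cst_add, herr]
      push_cast
      ring
  have h1 := key M 0 (by omega)
  rw [← hR]
  refine get_mono ?_ h1
  have hKN : (0 : ℝ) < (K * N' : ℕ) := by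
    have : 0 < K * N' := Nat.mul_pos hK hN'
    exact_mod_cast this
  have e6 : ((K * (N' * M) : ℕ) : ℝ) = (K * N' : ℕ) * M := by
    push_cast
    ring
  have h2 : Real.log (R + 2) ≤ Real.log ((1 + A) * (K * (N' * M) : ℕ) + 2) := by
    refine Real.log_le_log (by positivity) ?_
    have h3 : R ≤ (1 + A) * (K * (N' * M)) := by
      rw [hR]
      calc K * (N' * M) + s ≤ K * (N' * M) + A * (K * (N' * M)) := by omega
        _ = (1 + A) * (K * (N' * M)) := by ring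
    have h4 : (R : ℝ) ≤ ((1 + A) * (K * (N' * M)) : ℕ) := by exact_mod_cast h3
    rw [Nat.cast_mul, Nat.cast_add, Nat.cast_one] at h4
    linarith
  obtain ⟨lg, hlg⟩ : ∃ lg, lg = Real.log ((1 + A) * (K * (N' * M) : ℕ) + 2) := ⟨_, rfl⟩
  rw [← hlg] at h2 ⊢
  have h7 : (δ + C * (1 + Λ) * lg / (K * N' : ℕ)) * (K * (N' * M) : ℕ) =
      M * (δ * (K * N' : ℕ) + C * (1 + Λ) * lg) := by
    rw [e6]
    field_simp
  rw [h7, herr]
  have h8 : (M : ℝ) * (δ * (K * N' : ℕ) + C * (1 + Λ) * Real.log (R + 2)) ≤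
      M * (δ * (K * N' : ℕ) + C * (1 + Λ) * lg) := by
    refine mul_le_mul_of_nonneg_left ?_ (Nat.cast_nonneg M)
    have : C * (1 + Λ) * Real.log (R + 2) ≤ C * (1 + Λ) * lg :=
      mul_le_mul_of_nonneg_left h2 (by positivity)
    linarith
  linarith

/-- **(TOWER)**. -/
theorem tow_thm (hSTEP : STEPStmt) : TOWStmt := tow_of hSTEP

end Pool.KM7
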