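import Pool.Agent.H15.KM7.Defs

/-!
# The cost of a block is not negative
-/

set_option autoImplicit false

namespace Pool.KM7

open Finset Real

/-- Young's inequality for one digit string: the terms of the Gibbs sum. -/
lemma nng_term {Λ X x m : ℝ} (hΛ : 1 ≤ Λ) (hm : 0 < m) (hX : X + Real.log m ≤ x) :
    Real.exp (-(x - Λ * Real.log m) / Λ) ≤ Real.exp (-X) / Λ + (1 - 1 / Λ) * m := by
  have hΛ0 : 0 < Λ := by linarith
  have h1 : -(x - Λ * Real.log m) / Λ ≤ (1 / Λ) * (-X) + (1 - 1 / Λ) * Real.log m := by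
    have e1 : (1 / Λ) * (-X) + (1 - 1 / Λ) * Real.log m =
        -((X + Real.log m) - Λ * Real.log m) / Λ := by
      field_simp
      ring
    rw [e1]
    exact div_le_div_of_nonneg_right (by linarith) hΛ0.le
  have h2 : (0 : ℝ) ≤ 1 / Λ := by positivity
  have h3 : (0 : ℝ) ≤ 1 - 1 / Λ := by
    have : 1 / Λ ≤ 1 := by
      rw [div_le_one hΛ0]
      exact hΛ
    linarith
  have h4 := convexOn_exp.2 (Set.mem_univ (-X)) (Set.mem_univ (Real.log m)) h2 h3 (by ring)
  simp only [smul_eq_mul] at h4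
  rw [Real.exp_log hm] at h4
  calc Real.exp (-(x - Λ * Real.log m) / Λ) ≤
      Real.exp ((1 / Λ) * (-X) + (1 - 1 / Λ) * Real.log m) := Real.exp_le_exp.2 h1
    _ ≤ 1 / Λ * Real.exp (-X) + (1 - 1 / Λ) * m := h4
    _ = Real.exp (-X) / Λ + (1 - 1 / Λ) * m := by ring

/-- **(NNG)**, for any cost which is at least `K log 2 + log μ`, minus `Λ log μ`. -/
theorem nng_of {Y : Type} {K : ℕ} {Λ : ℝ} (hΛ : 1 ≤ Λ) (m : Y → ℕ → ℝ)
    (hm : ∀ y, ∀ t < 2 ^ K, 0 < m y t) (hs : ∀ y, ∑ t ∈ range (2 ^ K), m y t ≤ 1)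
    (g : Y → ℕ → ℝ) (hg : ∀ y, ∀ t < 2 ^ K, K * Real.log 2 + Real.log (m y t) ≤ g y t) :
    Nng (fun y t => g y t - Λ * Real.log (m y t)) Λ K := by
  intro y
  have hΛ0 : 0 < Λ := by linarith
  have h3 : (0 : ℝ) ≤ 1 - 1 / Λ := by
    have : 1 / Λ ≤ 1 := by
      rw [div_le_one hΛ0]
      exact hΛ
    linarith
  calc ∑ t ∈ range (2 ^ K), Real.exp (-(g y t - Λ * Real.log (m y t)) / Λ) ≤
      ∑ t ∈ range (2 ^ K), (Real.exp (-(K * Real.log 2)) / Λ + (1 - 1 / Λ) * m y t) :=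
        Finset.sum_le_sum fun t ht => nng_term hΛ (hm y t (Finset.mem_range.1 ht))
          (hg y t (Finset.mem_range.1 ht))
    _ = 1 / Λ + (1 - 1 / Λ) * ∑ t ∈ range (2 ^ K), m y t := by
        rw [Finset.sum_add_distrib, ← Finset.mul_sum, Finset.sum_const, Finset.card_range,
          nsmul_eq_mul]
        have e1 : Real.exp (-(K * Real.log 2)) = ((2 : ℝ) ^ K)⁻¹ := by
          rw [Real.exp_neg, mul_comm, Real.exp_mul, Real.exp_log (by norm_num),
            Real.rpow_natCast]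
        rw [e1]
        push_cast
        have h5 : (2 : ℝ) ^ K ≠ 0 := by positivity
        field_simp
    _ ≤ 1 / Λ + (1 - 1 / Λ) * 1 := by
        have := mul_le_mul_of_nonneg_left (hs y) h3
        linarith
    _ = 1 := by ring

/-- The laws of one block of `K` digits which are bounded below. -/
def BL (K : ℕ) : Type :=
  {m : ℕ → ℝ // (∀ t, 0 ≤ m t) ∧ ∑ t ∈ range (2 ^ K), m t ≤ 1 ∧
    ∀ t < 2 ^ K, 1 / 2 ^ (K + 1) ≤ m t}

/-- The masses of such a law are positive and at most `1`. -/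
lemma BL.pos {K : ℕ} (m : BL K) {t : ℕ} (ht : t < 2 ^ K) : 0 < m.1 t :=
  lt_of_lt_of_le (by positivity) (m.2.2.2 t ht)

lemma BL.le_one {K : ℕ} (m : BL K) {t : ℕ} (ht : t < 2 ^ K) : m.1 t ≤ 1 :=
  (Finset.single_le_sum (fun i _ => m.2.1 i) (Finset.mem_range.2 ht)).trans m.2.2.1

open Classical in
/-- The cost of a block: on the live strings `K log 2 + log μ`, on the others `x`. -/
noncomputable def fbl (K : ℕ) (P : (ℕ → ℝ) → ℕ → Prop) (x Λ : ℝ) (m : BL K) (t : ℕ) : ℝ :=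
  (if P m.1 t then K * Real.log 2 + Real.log (m.1 t) else x) - Λ * Real.log (m.1 t)

/-- **(NNG)** for laws of one block, whatever the live strings are. -/
theorem nng_bl {K : ℕ} {Λ : ℝ} (hΛ : 1 ≤ Λ) (P : (ℕ → ℝ) → ℕ → Prop) {x : ℝ}
    (hx : K * Real.log 2 ≤ x) : Nng (fbl K P x Λ) Λ K := by
  classical
  refine nng_of (Y := BL K) hΛ (fun m => m.1) (fun m t ht => m.pos ht) (fun m => m.2.2.1)
    (fun m t => if P m.1 t then K * Real.log 2 + Real.log (m.1 t) else x) ?_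
  intro m t ht
  show K * Real.log 2 + Real.log (m.1 t) ≤
    if P m.1 t then K * Real.log 2 + Real.log (m.1 t) else x
  split_ifs with h
  · exact le_refl _
  · have h1 := Real.log_nonpos (m.pos ht).le (m.le_one ht)
    linarith

/-- The form with `3 K log 2` on the dead strings. -/
theorem nng_bl3 {K : ℕ} {Λ : ℝ} (hΛ : 1 ≤ Λ) (P : (ℕ → ℝ) → ℕ → Prop) :
    Nng (fbl K P (3 * (K * Real.log 2)) Λ) Λ K := by
  refine nng_bl hΛ P ?_
  have : 0 ≤ (K : ℝ) * Real.log 2 := mul_nonneg (Nat.cast_nonneg K) (Real.log_nonneg (by norm_num))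
  linarith

/-- The cost of a string is bounded. -/
theorem fbl_bd {K : ℕ} {Λ : ℝ} (hΛ : 1 ≤ Λ) (P : (ℕ → ℝ) → ℕ → Prop) {x : ℝ}
    (hx : 0 ≤ x) (m : BL K) {t : ℕ} (ht : t < 2 ^ K) :
    -Real.log 2 ≤ fbl K P x Λ m t ∧
      fbl K P x Λ m t ≤ max x (K * Real.log 2) + Λ * ((K + 1) * Real.log 2) := by
  classical
  have h1 := Real.log_nonpos (m.pos ht).le (m.le_one ht)
  have h2 : -((K + 1) * Real.log 2) ≤ Real.log (m.1 t) := by
    have := Real.log_le_log (by positivity) (m.2.2.2 t ht)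
    rw [Real.log_div one_ne_zero (by positivity), Real.log_one, Real.log_pow] at this
    push_cast at this
    linarith
  have h3 : Λ * Real.log (m.1 t) ≤ 0 := mul_nonpos_of_nonneg_of_nonpos (by linarith) h1
  have h4 : -(Λ * ((K + 1) * Real.log 2)) ≤ Λ * Real.log (m.1 t) := by
    have := mul_le_mul_of_nonneg_left h2 (show 0 ≤ Λ by linarith)
    linarith
  have h5 : x ≤ max x (K * Real.log 2) := le_max_left _ _
  have h6 : (K : ℝ) * Real.log 2 ≤ max x (K * Real.log 2) := le_max_right _ _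
  unfold fbl
  have h7 : 0 ≤ Real.log 2 := Real.log_nonneg (by norm_num)
  split_ifs with h
  · constructor
    · have : -(((K : ℝ) + 1) * Real.log 2) = -(K * Real.log 2) - Real.log 2 := by ring
      linarith
    · linarith
  · constructor <;> linarith

end Pool.KM7
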